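import Pool.Agent.Results.MP_b38472_lc.NoConvergence

set_option autoImplicit false

open Pool.Agent.Results.MP_b38472_lc.NoConvergence

namespace Pool.Agent.Results.MP_b38472_lc.ArbitrarilySmallConditionals

/-! ### Definition used in the statement -/

/-- `X` is left-c.e.: the set of the strings lexicographically to the left of `X` is recursively
enumerable (equivalently, the real number with binary expansion `X` is the limit of a nondecreasing
computable sequence of rationals). The left-c.e. Martin-Löf random sequences are exactly the halting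
probabilities of the universal prefix-free machines. -/
def LeftCE (X : ℕ → Bool) : Prop :=
  REPred fun σ : List Bool =>
    ∃ n, n < σ.length ∧ σ.take n = seg X n ∧ σ[n]? = some false ∧ X n = true

/-! ### Lexicographic order and binary expansions -/

theorem val_lt_iff (L : ℕ) : ∀ σ τ : List Bool, σ.length = L → τ.length = L →
    (val σ < val τ ↔ ∃ n, n < L ∧ σ.take n = τ.take n ∧ σ[n]? = some false ∧ τ[n]? = some true) := by
  induction L with
  | zero =>
    intro σ τ h1 h2
    rw [List.length_eq_zero_iff] at h1 h2
    subst h1; subst h2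
    simp
  | succ L ih =>
    intro σ τ h1 h2
    obtain ⟨σ', s, rfl⟩ : ∃ σ' s, σ = σ' ++ [s] := by
      rcases List.eq_nil_or_concat σ with h | ⟨a, b, h⟩
      · rw [h] at h1; simp at h1
      · exact ⟨a, b, by rw [h]; simp⟩
    obtain ⟨τ', t, rfl⟩ : ∃ τ' t, τ = τ' ++ [t] := by
      rcases List.eq_nil_or_concat τ with h | ⟨a, b, h⟩
      · rw [h] at h2; simp at h2
      · exact ⟨a, b, by rw [h]; simp⟩
    have h1' : σ'.length = L := by simpa using h1
    have h2' : τ'.length = L := by simpa using h2
    have hi := ih σ' τ' h1' h2'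
    rw [val_append, val_append]
    have hσ : ∀ n, n < L → (σ' ++ [s])[n]? = σ'[n]? := fun n hn =>
      List.getElem?_append_left (by omega)
    have hτ : ∀ n, n < L → (τ' ++ [t])[n]? = τ'[n]? := fun n hn =>
      List.getElem?_append_left (by omega)
    have hσ2 : ∀ n, n ≤ L → (σ' ++ [s]).take n = σ'.take n := fun n hn =>
      List.take_append_of_le_length (by omega)
    have hτ2 : ∀ n, n ≤ L → (τ' ++ [t]).take n = τ'.take n := fun n hn =>
      List.take_append_of_le_length (by omega)
    have hσL : (σ' ++ [s])[L]? = some s := by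
      rw [List.getElem?_append_right (by omega), h1', Nat.sub_self]; rfl
    have hτL : (τ' ++ [t])[L]? = some t := by
      rw [List.getElem?_append_right (by omega), h2', Nat.sub_self]; rfl
    constructor
    · intro h
      by_cases hlt : val σ' < val τ'
      · obtain ⟨n, hn, a1, a2, a3⟩ := hi.1 hlt
        exact ⟨n, by omega, by rw [hσ2 n hn.le, hτ2 n hn.le, a1], by rw [hσ n hn, a2],
          by rw [hτ n hn, a3]⟩
      · have he : val σ' = val τ' ∧ s = false ∧ t = true := by
          cases s <;> cases t <;> simp at h ⊢ <;> omega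
        obtain ⟨he, hs, ht⟩ := he
        have hst : σ' = τ' := by
          rw [← bits_val σ', ← bits_val τ', he, h1', h2']
        refine ⟨L, by omega, ?_, ?_, ?_⟩
        · rw [hσ2 L le_rfl, hτ2 L le_rfl, hst]
        · rw [hσL, hs]
        · rw [hτL, ht]
    · rintro ⟨n, hn, a1, a2, a3⟩
      rcases Nat.lt_succ_iff_lt_or_eq.1 hn with hn' | rfl
      · rw [hσ2 n hn'.le, hτ2 n hn'.le] at a1
        rw [hσ n hn'] at a2
        rw [hτ n hn'] at a3
        have := hi.2 ⟨n, hn', a1, a2, a3⟩
        cases s <;> cases t <;> simp <;> omega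
      · rw [hσ2 n le_rfl, hτ2 n le_rfl, List.take_of_length_le (by omega),
          List.take_of_length_le (by omega)] at a1
        rw [hσL] at a2
        rw [hτL] at a3
        have e1 := Option.some.inj a2
        have e2 := Option.some.inj a3
        subst e1; subst e2; subst a1
        simp

theorem left_iff (X : ℕ → Bool) (σ : List Bool) :
    (∃ n, n < σ.length ∧ σ.take n = seg X n ∧ σ[n]? = some false ∧ X n = true) ↔
      val σ < val (seg X σ.length) := by
  rw [val_lt_iff σ.length σ (seg X σ.length) rfl (seg_length _ _)]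
  constructor
  · rintro ⟨n, hn, a1, a2, a3⟩
    exact ⟨n, hn, by rw [a1, seg_take X hn.le], a2, by rw [seg_get X hn, a3]⟩
  · rintro ⟨n, hn, a1, a2, a3⟩
    rw [seg_take X hn.le] at a1
    rw [seg_get X hn] at a3
    exact ⟨n, hn, a1, a2, Option.some.inj a3⟩

theorem val_append' (σ : List Bool) (m k : ℕ) (hk : k < 2 ^ m) :
    val (σ ++ bits m k) = val σ * 2 ^ m + k := by
  have h1 : σ ++ bits m k = bits (σ.length + m) (val σ * 2 ^ m + k) := by
    rw [← bits_append _ _ _ _ hk, bits_val]
  rw [h1]
  refine val_bits _ _ ?_
  have h2 := val_lt σ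
  rw [pow_add]
  have h3 : (val σ + 1) * 2 ^ m ≤ 2 ^ σ.length * 2 ^ m := Nat.mul_le_mul_right _ h2
  have h4 : (val σ + 1) * 2 ^ m = val σ * 2 ^ m + 2 ^ m := by ring
  omega

/-- semidecidable sets by search -/
theorem re_search {α : Type} [Primcodable α] {A : α → ℕ → Bool} (hA : Computable₂ A) :
    REPred fun a => ∃ n, A a n = true := by
  have h1 : Partrec fun a => Nat.rfind fun n => Part.some (A a n) := Partrec.rfind hA
  refine h1.dom_re.of_eq fun a => ?_
  rw [Nat.rfind_dom]
  constructor
  · rintro ⟨n, hn, _⟩
    exact ⟨n, by simpa using hn⟩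
  · rintro ⟨n, hn⟩
    exact ⟨n, by simpa using hn, fun _ => trivial⟩

section core

variable {T : ℕ → ℕ → ℕ → Bool}

theorem st_step (hne : ∀ n, (st T n).2 = false) (n : ℕ) :
    16 * (st T n).1 ≤ 8 * (st T (n + 1)).1 := by
  have hst : st T n = ((st T n).1, false) := by rw [← hne n]
  rcases st_cases hst with ⟨h1, h2, _⟩ | ⟨h, s, h1, hs, h2, h3, h4⟩ | ⟨h, s, h1, hs, h2, h3, h4⟩
  · rw [h2]; show 16 * _ ≤ 8 * (2 * (st T n).1); omega
  · rw [h3]; show 16 * _ ≤ 8 * (2 * (st T n).1 + s); omega
  · have := hne (n + 1)
    rw [h3] at this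
    exact absurd this (by simp)

/-- The limit of the frontier is left-c.e. -/
theorem leftCE_lim (hT : Computable fun z : (ℕ × ℕ) × ℕ => T z.1.1 z.1.2 z.2)
    (hne : ∀ n, (st T n).2 = false) {b : ℕ → ℕ} (hb1 : ∀ m, b (m + 1) / 2 = b m)
    (hb2 : ∀ m, ∃ N, ∀ n, N ≤ n → m ≤ n ∧ 8 * (st T n).1 / 2 ^ (n - m) = b m)
    (x : List Bool) : LeftCE (limSeq x b) := by
  have hbd : ∀ n, 8 * (st T n).1 < 2 ^ n := fun n => by
    have h1 : st T n = ((st T n).1, false) := by rw [← hne n]
    have h2 := st_bound n _ h1
    have h3 : 0 < 2 ^ n := by positivity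
    omega
  have hcomp : Computable fun n => (st T n).1 := by
    have k1 : Computable fun z : ((Unit × ℕ) × ℕ) × ℕ => z.1.1.2 :=
      Computable.snd.comp (Computable.fst.comp Computable.fst)
    have k2 : Computable fun z : ((Unit × ℕ) × ℕ) × ℕ => z.1.2 :=
      Computable.snd.comp Computable.fst
    have k3 : Computable fun z : ((Unit × ℕ) × ℕ) × ℕ => z.2 := Computable.snd
    have k4 : Computable fun z : ((Unit × ℕ) × ℕ) × ℕ => ((z.1.1.2, z.1.2), z.2) :=
      (k1.pair k2).pair k3
    have h00 := hT.comp k4
    have h0 : Computable fun z : ((Unit × ℕ) × ℕ) × ℕ => T z.1.1.2 z.1.2 z.2 := h00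
    have h01 := st_comp (α := Unit) (β := ℕ) (T := fun _ => T) h0 (w := fun _ => ())
      (n := fun n => n) (Computable.const ()) Computable.id
    have h1 : Computable fun n : ℕ => st T n := h01
    exact Computable.fst.comp h1
  -- the approximation
  have hA : Computable₂ fun (σ : List Bool) (n : ℕ) =>
      decide (σ.length ≤ n) && decide (val σ < val ((x ++ bits n (8 * (st T n).1)).take σ.length)) := by
    have h1 : Computable fun z : List Bool × ℕ =>
        (x ++ bits z.2 (8 * (st T z.2).1)).take z.1.length :=
      ctake (cappend (Computable.const x) (bits_comp Computable.snd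
        (cmul (Computable.const 8) (hcomp.comp Computable.snd)))) (clen Computable.fst)
    exact (cand (cle (clen Computable.fst) Computable.snd)
      (clt (val_comp Computable.fst) (val_comp h1)))
  refine (re_search hA).of_eq fun σ => ?_
  rw [left_iff]
  simp only [Bool.and_eq_true, decide_eq_true_eq]
  rcases Nat.lt_or_ge x.length σ.length with hl | hl
  · -- long strings
    obtain ⟨m, hm⟩ : ∃ m, σ.length = x.length + m := ⟨σ.length - x.length, by omega⟩
    have hval : ∀ n, m ≤ n → val ((x ++ bits n (8 * (st T n).1)).take σ.length) =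
        val x * 2 ^ m + 8 * (st T n).1 / 2 ^ (n - m) := by
      intro n hn
      rw [hm, List.take_append, List.take_of_length_le (by omega)]
      have e1 : x.length + m - x.length = m := by omega
      rw [e1, bits_take _ _ _ hn]
      refine val_append' _ _ _ ?_
      rw [Nat.div_lt_iff_lt_mul (by positivity), ← pow_add]
      have e2 : m + (n - m) = n := by omega
      rw [e2]
      exact hbd n
    have hbm : b m < 2 ^ m := by
      obtain ⟨N, hN⟩ := hb2 m
      obtain ⟨h1, h2⟩ := hN N le_rfl
      rw [← h2, Nat.div_lt_iff_lt_mul (by positivity), ← pow_add]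
      have e2 : m + (N - m) = N := by omega
      rw [e2]
      exact hbd N
    have hlim : val (seg (limSeq x b) σ.length) = val x * 2 ^ m + b m := by
      rw [hm, seg_limSeq hb1, val_append' _ _ _ hbm]
    rw [hlim]
    have hmono : ∀ n k, m ≤ n → 8 * (st T n).1 / 2 ^ (n - m) ≤
        8 * (st T (n + k)).1 / 2 ^ (n + k - m) := by
      intro n k hn
      induction k with
      | zero => exact le_rfl
      | succ k ih =>
        refine ih.trans ?_
        have e1 : n + (k + 1) - m = (n + k - m) + 1 := by omega
        rw [e1, pow_succ', ← Nat.div_div_eq_div_mul, ← add_assoc]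
        exact Nat.div_le_div_right (by have := st_step hne (n + k); omega)
    constructor
    · rintro ⟨n, hn, h⟩
      rw [hval n (by omega)] at h
      obtain ⟨N, hN⟩ := hb2 m
      have h1 := hmono n N (by omega)
      rw [(hN (n + N) (by omega)).2] at h1
      omega
    · intro h
      obtain ⟨N, hN⟩ := hb2 m
      refine ⟨max N σ.length, le_max_right _ _, ?_⟩
      obtain ⟨h1, h2⟩ := hN (max N σ.length) (le_max_left _ _)
      rw [hval _ h1, h2]
      exact h
  · -- short strings
    have h1 : ∀ n, (x ++ bits n (8 * (st T n).1)).take σ.length = x.take σ.length := fun n =>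
      List.take_append_of_le_length hl
    have h2 : seg (limSeq x b) σ.length = x.take σ.length := by
      have h3 := seg_limSeq hb1 (x := x) 0
      rw [add_zero, bits_zero, List.append_nil] at h3
      rw [← seg_take _ hl, h3]
    rw [h2]
    constructor
    · rintro ⟨n, _, h⟩
      rwa [h1] at h
    · intro h
      exact ⟨σ.length, le_rfl, by rwa [h1]⟩

end core

/-! ### The nodes -/

section nodes

variable (p q : List Bool → ℕ → ℕ) (G : ℕ → ℕ → ℕ)

/-- the nodes of depth `j`; the attacks on the nodes of depth `j` have the parameter `G e j` -/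
def node2 (e : ℕ) : ℕ → List Bool → Prop
  | 0, y => y = []
  | j + 1, y => ∃ x, node2 e j x ∧ piece p q (G e j) j x y = true

/-- the list of the truth values of `node2 e j` on the initial segments of `y` -/
def lvs2 (e : ℕ) (y : List Bool) (j : ℕ) : List Bool :=
  Nat.rec (motive := fun _ => List Bool) (seg (fun l => decide (l = 0)) (y.length + 1))
    (fun j s => seg (fun l => bex l fun l' =>
      (s.getD l' false) && piece p q (G e j) j (y.take l') (y.take l)) (y.length + 1)) j

/-- decision procedure for `node2` -/
def nodeB2 (e j : ℕ) (y : List Bool) : Bool := (lvs2 p q G e y j).getD y.length false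

theorem lvs2_get (e : ℕ) (y : List Bool) (j : ℕ) : ∀ l, l ≤ y.length →
    ((lvs2 p q G e y j).getD l false = true ↔ node2 p q G e j (y.take l)) := by
  induction j with
  | zero =>
    intro l hl
    show (seg (fun l => decide (l = 0)) (y.length + 1)).getD l false = true ↔ y.take l = []
    rw [List.getD_eq_getElem?_getD, seg_get _ (by omega)]
    simp only [Option.getD_some, decide_eq_true_eq]
    constructor
    · rintro rfl; rfl
    · intro h
      have := congrArg List.length h
      rw [List.length_take] at this
      simp only [List.length_nil] at this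
      omega
  | succ j ih =>
    intro l hl
    show (seg (fun l => bex l fun l' =>
      ((lvs2 p q G e y j).getD l' false) && piece p q (G e j) j (y.take l') (y.take l))
        (y.length + 1)).getD l false = true ↔
        ∃ x, node2 p q G e j x ∧ piece p q (G e j) j x (y.take l) = true
    rw [List.getD_eq_getElem?_getD, seg_get _ (by omega)]
    simp only [Option.getD_some]
    rw [bex_iff]
    constructor
    · rintro ⟨l', hl', h⟩
      rw [Bool.and_eq_true] at h
      exact ⟨y.take l', (ih l' (by omega)).1 h.1, h.2⟩
    · rintro ⟨x, hx, hp⟩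
      have hp' := hp
      unfold piece at hp'
      simp only [Bool.and_eq_true, decide_eq_true_eq] at hp'
      have h1 : x.length < l := by
        have := hp'.1
        rw [List.length_take] at this
        omega
      have h2 : x = y.take x.length := by
        have := hp'.2.1
        rw [List.take_take, min_eq_left (by omega)] at this
        exact this.symm
      refine ⟨x.length, h1, ?_⟩
      rw [Bool.and_eq_true]
      refine ⟨(ih x.length (by omega)).2 (by rw [← h2]; exact hx), ?_⟩
      rw [← h2]
      exact hp

theorem nodeB2_iff (e j : ℕ) (y : List Bool) :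
    nodeB2 p q G e j y = true ↔ node2 p q G e j y := by
  unfold nodeB2
  rw [lvs2_get p q G e y j y.length le_rfl, List.take_length]

variable {p q G}

theorem nodeB2_comp (hp : Computable₂ p) (hq : Computable₂ q) (hG : Computable₂ G) :
    Computable fun z : (ℕ × ℕ) × List Bool => nodeB2 p q G z.1.1 z.1.2 z.2 := by
  have he : Computable fun z : (ℕ × ℕ) × List Bool => z.1.1 :=
    Computable.fst.comp Computable.fst
  have hj : Computable fun z : (ℕ × ℕ) × List Bool => z.1.2 :=
    Computable.snd.comp Computable.fst
  have hy : Computable fun z : (ℕ × ℕ) × List Bool => z.2 := Computable.snd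
  have hlen : Computable fun z : (ℕ × ℕ) × List Bool => z.2.length + 1 :=
    cadd (clen hy) (Computable.const 1)
  have h0 : Computable fun z : (ℕ × ℕ) × List Bool =>
      seg (fun l => decide (l = 0)) (z.2.length + 1) := by
    refine seg_comp ?_ hlen
    exact (ceqN (f := fun w : ((ℕ × ℕ) × List Bool) × ℕ => w.2) Computable.snd
      (Computable.const 0) : Computable fun w : ((ℕ × ℕ) × List Bool) × ℕ => decide (w.2 = 0))
  have hstep : Computable₂ fun (z : (ℕ × ℕ) × List Bool) (r : ℕ × List Bool) =>
      seg (fun l => bex l fun l' => (r.2.getD l' false) &&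
        piece p q (G z.1.1 r.1) r.1 (z.2.take l') (z.2.take l)) (z.2.length + 1) := by
    have hinner : Computable fun w : ((((ℕ × ℕ) × List Bool) × ℕ × List Bool) × ℕ) × ℕ =>
        (w.1.1.2.2.getD w.2 false) &&
          piece p q (G w.1.1.1.1.1 w.1.1.2.1) w.1.1.2.1 (w.1.1.1.2.take w.2)
            (w.1.1.1.2.take w.1.2) := by
      have k1 : Computable fun w : ((((ℕ × ℕ) × List Bool) × ℕ × List Bool) × ℕ) × ℕ => w.1.1 :=
        Computable.fst.comp Computable.fst
      have kz : Computable fun w : ((((ℕ × ℕ) × List Bool) × ℕ × List Bool) × ℕ) × ℕ =>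
        w.1.1.1 := Computable.fst.comp k1
      have kr : Computable fun w : ((((ℕ × ℕ) × List Bool) × ℕ × List Bool) × ℕ) × ℕ =>
        w.1.1.2 := Computable.snd.comp k1
      have kl : Computable fun w : ((((ℕ × ℕ) × List Bool) × ℕ × List Bool) × ℕ) × ℕ => w.1.2 :=
        Computable.snd.comp Computable.fst
      exact cand (getD_comp (Computable.snd.comp kr) Computable.snd)
        (piece_comp hp hq (hG.comp (Computable.fst.comp (Computable.fst.comp kz))
          (Computable.fst.comp kr)) (Computable.fst.comp kr)
          (ctake (Computable.snd.comp kz) Computable.snd) (ctake (Computable.snd.comp kz) kl))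
    have hbex : Computable fun w : (((ℕ × ℕ) × List Bool) × ℕ × List Bool) × ℕ =>
        bex w.2 fun l' => (w.1.2.2.getD l' false) &&
          piece p q (G w.1.1.1.1 w.1.2.1) w.1.2.1 (w.1.1.2.take l') (w.1.1.2.take w.2) :=
      bex_comp (g := fun w : (((ℕ × ℕ) × List Bool) × ℕ × List Bool) × ℕ => w.2)
        (q := fun w l' => (w.1.2.2.getD l' false) &&
          piece p q (G w.1.1.1.1 w.1.2.1) w.1.2.1 (w.1.1.2.take l') (w.1.1.2.take w.2))
        Computable.snd hinner
    have hseg : Computable fun w : ((ℕ × ℕ) × List Bool) × ℕ × List Bool =>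
        seg (fun l => bex l fun l' => (w.2.2.getD l' false) &&
          piece p q (G w.1.1.1 w.2.1) w.2.1 (w.1.2.take l') (w.1.2.take l)) (w.1.2.length + 1) :=
      seg_comp (f := fun (w : ((ℕ × ℕ) × List Bool) × ℕ × List Bool) l =>
        bex l fun l' => (w.2.2.getD l' false) &&
          piece p q (G w.1.1.1 w.2.1) w.2.1 (w.1.2.take l') (w.1.2.take l))
        hbex (hlen.comp Computable.fst)
    exact hseg.to₂
  have hl : Computable fun z : (ℕ × ℕ) × List Bool => lvs2 p q G z.1.1 z.2 z.1.2 :=
    (Computable.nat_rec hj h0 hstep).of_eq fun z => rfl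
  exact getD_comp hl (clen hy)

end nodes

section sums

variable (p q : List Bool → ℕ → ℕ) (G : ℕ → ℕ → ℕ)

open Classical in
theorem node2_sum (e j t : ℕ) :
    ∑ y ∈ strs t, (if node2 p q G e j y then (1 : ℝ) / 2 ^ y.length else 0) ≤ 1 / 2 ^ j := by
  induction j with
  | zero =>
    have h1 : ∀ y ∈ strs t, (if node2 p q G e 0 y then (1 : ℝ) / 2 ^ y.length else 0) =
        if y = [] then 1 else 0 := by
      intro y _
      have : node2 p q G e 0 y ↔ y = [] := Iff.rfl
      by_cases hy : y = []
      · subst hy
        rw [if_pos (this.2 rfl), if_pos rfl]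
        simp
      · rw [if_neg (fun h => hy (this.1 h)), if_neg hy]
    rw [Finset.sum_congr rfl h1, Finset.sum_ite_eq']
    split_ifs <;> norm_num
  | succ j ih =>
    have h1 : ∀ y ∈ strs t, (if node2 p q G e (j + 1) y then (1 : ℝ) / 2 ^ y.length else 0) ≤
        ∑ x ∈ strs t, if node2 p q G e j x then
          (if piece p q (G e j) j x y = true then (1 : ℝ) / 2 ^ y.length else 0) else 0 := by
      intro y hy
      have h0 : ∀ x ∈ strs t, (0 : ℝ) ≤ if node2 p q G e j x then
          (if piece p q (G e j) j x y = true then (1 : ℝ) / 2 ^ y.length else 0) else 0 := by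
        intro x _
        split_ifs <;> positivity
      by_cases hn : node2 p q G e (j + 1) y
      · rw [if_pos hn]
        obtain ⟨x, hx, hxy⟩ := hn
        have hlen : x.length < y.length := by
          have hxy' := hxy
          unfold piece at hxy'
          simp only [Bool.and_eq_true, decide_eq_true_eq] at hxy'
          exact hxy'.1
        have hmem : x ∈ strs t := mem_strs.2 (hlen.trans (mem_strs.1 hy))
        refine le_trans ?_ (Finset.single_le_sum h0 hmem)
        rw [if_pos hx, if_pos hxy]
      · rw [if_neg hn]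
        exact Finset.sum_nonneg h0
    refine (Finset.sum_le_sum h1).trans ?_
    rw [Finset.sum_comm]
    have h2 : ∀ x ∈ strs t, (∑ y ∈ strs t, if node2 p q G e j x then
        (if piece p q (G e j) j x y = true then (1 : ℝ) / 2 ^ y.length else 0) else 0) ≤
        (if node2 p q G e j x then (1 : ℝ) / 2 ^ x.length else 0) * (1 / 2) := by
      intro x _
      by_cases hx : node2 p q G e j x
      · simp only [if_pos hx]
        refine (piece_sum p q (G e j) j t x).trans (le_of_eq ?_)
        ring
      · simp only [if_neg hx]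
        simp
    refine (Finset.sum_le_sum h2).trans ?_
    rw [← Finset.sum_mul, pow_succ]
    calc _ ≤ 1 / 2 ^ j * (1 / 2 : ℝ) := mul_le_mul_of_nonneg_right ih (by norm_num)
      _ = _ := by field_simp

end sums

theorem leaves2 {M : List Bool → ℝ} (hM : IsUniversal M) {p q : List Bool → ℕ → ℕ}
    (hp : Computable₂ p) (hq : Computable₂ q) {G : ℕ → ℕ → ℕ} (hG : Computable₂ G)
    {dd : ℕ → ℕ} (hdd : Computable dd) : ∃ c : ℝ, 0 < c ∧ ∀ e y,
      node2 p q G e (dd e) y → c * (2 ^ (dd e) / 2 ^ (e + 1 + y.length)) ≤ M y := by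
  classical
  have k0 : Computable fun z : ℕ × List Bool => dd z.1 := hdd.comp Computable.fst
  have k1 : Computable fun z : ℕ × List Bool => ((z.1, dd z.1), z.2) :=
    (Computable.fst.pair k0).pair Computable.snd
  have k2 := (nodeB2_comp hp hq hG).comp k1
  have hP : Computable₂ fun e y => nodeB2 p q G e (dd e) y := k2
  obtain ⟨c, hc, h⟩ := lemmaD hM (fun e y => nodeB2 p q G e (dd e) y) hP dd (fun e => e + 1) hdd
    (cadd Computable.id (Computable.const 1)) (by
      intro t
      have h1 : ∀ e ∈ Finset.range t, (∑ l ∈ Finset.range t, ∑ k ∈ Finset.range (2 ^ l),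
          (if nodeB2 p q G e (dd e) (bits l k) = true then
            (2 : ℝ) ^ (dd e) / 2 ^ (e + 1 + l) else 0)) ≤ 1 / 2 ^ (e + 1) := by
        intro e _
        have h2 : (∑ l ∈ Finset.range t, ∑ k ∈ Finset.range (2 ^ l),
          (if nodeB2 p q G e (dd e) (bits l k) = true then
            (2 : ℝ) ^ (dd e) / 2 ^ (e + 1 + l) else 0)) =
          2 ^ (dd e) / 2 ^ (e + 1) * ∑ y ∈ strs t,
            (if node2 p q G e (dd e) y then (1 : ℝ) / 2 ^ y.length else 0) := by
          rw [sum_strs, Finset.mul_sum]
          refine Finset.sum_congr rfl fun l _ => ?_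
          rw [Finset.mul_sum]
          refine Finset.sum_congr rfl fun k _ => ?_
          by_cases hn : node2 p q G e (dd e) (bits l k)
          · rw [if_pos hn, if_pos ((nodeB2_iff p q G e _ _).2 hn), bits_length, pow_add]
            field_simp
          · rw [if_neg hn, if_neg (fun h => hn ((nodeB2_iff p q G e _ _).1 h)), mul_zero]
        rw [h2]
        calc _ ≤ (2 : ℝ) ^ (dd e) / 2 ^ (e + 1) * (1 / 2 ^ (dd e)) :=
              mul_le_mul_of_nonneg_left (node2_sum p q G e (dd e) t) (by positivity)
          _ = _ := by field_simp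
      refine (Finset.sum_le_sum h1).trans ?_
      have h3 : ∀ t : ℕ, ∑ e ∈ Finset.range t, (1 : ℝ) / 2 ^ (e + 1) = 1 - 1 / 2 ^ t := by
        intro t
        induction t with
        | zero => simp
        | succ t ih =>
          rw [Finset.sum_range_succ, ih, pow_succ]
          field_simp
          ring
      rw [h3]
      have : (0 : ℝ) ≤ 1 / 2 ^ t := by positivity
      linarith)
  exact ⟨c, hc, fun e y hy => h e y ((nodeB2_iff p q G e _ _).2 hy)⟩

/-! ### An attack which is never exhausted -/

/-- the sequence `X` with the string `σ` put in front of it -/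
def pre (σ : List Bool) (X : ℕ → Bool) (i : ℕ) : Bool :=
  if i < σ.length then σ.getD i false else X (i - σ.length)

theorem pre_limSeq (σ x : List Bool) (b : ℕ → ℕ) :
    pre σ (limSeq x b) = limSeq (σ ++ x) b := by
  funext i
  unfold pre limSeq
  by_cases h1 : i < σ.length
  · rw [if_pos h1, if_pos (by rw [List.length_append]; omega)]
    rw [List.getD_eq_getElem?_getD, List.getD_eq_getElem?_getD, List.getElem?_append_left h1]
  · rw [if_neg h1]
    by_cases h2 : i - σ.length < x.length
    · rw [if_pos h2, if_pos (by rw [List.length_append]; omega)]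
      rw [List.getD_eq_getElem?_getD, List.getD_eq_getElem?_getD,
        List.getElem?_append_right (by omega)]
    · rw [if_neg h2, if_neg (by rw [List.length_append]; omega)]
      rw [List.length_append]
      have e : i - (σ.length + x.length) = i - σ.length - x.length := by omega
      rw [e]

theorem seg_pre (σ : List Bool) (X : ℕ → Bool) (m : ℕ) :
    seg (pre σ X) (σ.length + m) = σ ++ seg X m := by
  induction m with
  | zero =>
    rw [add_zero]
    show _ = σ ++ []
    rw [List.append_nil]
    apply List.ext_getElem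
    · rw [seg_length]
    · intro i h1 h2
      simp only [seg, List.getElem_map, List.getElem_range]
      unfold pre
      rw [if_pos h2, List.getD_eq_getElem _ _ h2]
  | succ m ih =>
    rw [← add_assoc, seg_succ, ih, seg_succ, List.append_assoc]
    congr 2
    unfold pre
    rw [if_neg (by omega)]
    congr 2
    omega

/-- If the attack on a node is never exhausted, it produces a left-c.e. random sequence along which
the semimeasure has large drops. -/
theorem attack_gives {M : List Bool → ℝ} {p q : List Bool → ℕ → ℕ} (hM : IsUniversal M)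
    (hp : Computable₂ p) (hq : Computable₂ q)
    (hpq : ∀ x, Monotone (fun t => (p x t : ℝ) / (q x t + 1)) ∧
      Filter.Tendsto (fun t => (p x t : ℝ) / (q x t + 1)) Filter.atTop (nhds (M x)))
    {e j : ℕ} {x : List Bool} {r η : ℝ} (hη : 0 ≤ η) (hr0 : 0 ≤ r)
    (hr : 1 / 2 ^ (2 * e) ≤ η * r)
    (hne : ∀ n, (st (tst p q e j x) n).2 = false)
    (hinv : ∀ n k, k ≤ n → (7 * r + (1 / 2 ^ (2 * e)) / 4) / 8 * (2 ^ (j + 1) / 2 ^ x.length) *
      ((8 * (st (tst p q e j x) n).1 % 2 ^ k : ℕ) : ℝ) / 2 ^ n ≤
        LM (trunc M j x) n (8 * (st (tst p q e j x) n).1) k) :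
    ∃ X : ℕ → Bool, (∃ C : ℝ, ∀ n, M (seg X n) ≤ C / 2 ^ n) ∧ (∀ σ, LeftCE (pre σ X)) ∧
      ∀ n0, ∃ n, n0 ≤ n ∧ M (seg X (n + 3)) ≤ η * M (seg X n) := by
  have k0 : Computable fun _ : (ℕ × ℕ) × ℕ => (((e, j), x) : (ℕ × ℕ) × List Bool) :=
    Computable.const _
  have k1 : Computable fun z : (ℕ × ℕ) × ℕ => z.1.1 := Computable.fst.comp Computable.fst
  have k2 : Computable fun z : (ℕ × ℕ) × ℕ => z.1.2 := Computable.snd.comp Computable.fst
  have k3 : Computable fun z : (ℕ × ℕ) × ℕ => z.2 := Computable.snd
  have k4 : Computable fun z : (ℕ × ℕ) × ℕ => (((((e, j), x), z.1.1), z.1.2), z.2) :=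
    ((k0.pair k1).pair k2).pair k3
  have hTcomp0 := (tst_comp hp hq).comp k4
  have hTcomp : Computable fun z : (ℕ × ℕ) × ℕ => tst p q e j x z.1.1 z.1.2 z.2 := hTcomp0
  set T := tst p q e j x with hT
  obtain ⟨b, hb1, hb0, hb2, hb3⟩ := limit hne
  set X := limSeq x b with hX
  have hseg : ∀ m, seg X (x.length + m) = x ++ bits m (b m) := seg_limSeq hb1
  have hθ : (0 : ℝ) < 1 / 2 ^ (2 * e) := by positivity
  set θ : ℝ := 1 / 2 ^ (2 * e) with hθdef
  have hbound : ∀ n, M (seg X n) ≤ (2 ^ (j + 1) + 2 ^ x.length) / 2 ^ n := by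
    intro n
    rcases Nat.lt_or_ge x.length n with h | h
    · obtain ⟨m, rfl⟩ : ∃ m, n = x.length + m := ⟨n - x.length, by omega⟩
      rw [hseg]
      refine (tst_false_one hpq hT (hb2 m) (hb3 m (by omega))).trans ?_
      refine div_le_div_of_nonneg_right ?_ (by positivity)
      have : (0 : ℝ) < 2 ^ x.length := by positivity
      linarith
    · refine (M_le_one hM.semi _).trans ?_
      rw [le_div_iff₀ (by positivity), one_mul]
      have h1 : (2 : ℝ) ^ n ≤ 2 ^ x.length := pow_le_pow_right₀ (by norm_num) h
      have : (0 : ℝ) < 2 ^ (j + 1) := by positivity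
      linarith
  refine ⟨X, ⟨_, hbound⟩, fun σ => ?_, fun n0 => ?_⟩
  · rw [hX, pre_limSeq]
    exact leftCE_lim hTcomp hne hb1 hb2 _
  obtain ⟨n, hn, hpat⟩ := pattern hM hbound
    ([true, true, true] ++ List.replicate (2 * e + 2) false) (max n0 (x.length + 1))
  have hn0 : n0 ≤ n := (le_max_left _ _).trans hn
  have hnx : x.length + 1 ≤ n := (le_max_right _ _).trans hn
  obtain ⟨m, rfl⟩ : ∃ m, n = x.length + m := ⟨n - x.length, by omega⟩
  refine ⟨x.length + m, hn0, ?_⟩
  have hm1 : 1 ≤ m := by omega
  -- the values of the sequence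
  have hlen : ([true, true, true] ++ List.replicate (2 * e + 2) false).length = 2 * e + 5 := by
    simp
  rw [hlen] at hpat
  have hval : ∀ i, i < 2 * e + 5 → b (m + i + 1) % 2 = if i < 3 then 1 else 0 := by
    intro i hi
    have h1 : (seg X (x.length + m + (2 * e + 5)))[x.length + m + i]? =
        some (X (x.length + m + i)) := seg_get X (by omega)
    rw [hpat, List.getElem?_append_right (by rw [seg_length]; omega), seg_length] at h1
    have e1 : x.length + m + i - (x.length + m) = i := by omega
    rw [e1] at h1
    have h2 : X (x.length + m + i) = decide (b (m + i + 1) % 2 = 1) := by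
      rw [hX]
      unfold limSeq
      rw [if_neg (by omega)]
      have e2 : x.length + m + i - x.length + 1 = m + i + 1 := by omega
      rw [e2]
    rw [h2] at h1
    rcases Nat.lt_or_ge i 3 with h3 | h3
    · rw [if_pos h3]
      have h4 : ([true, true, true] ++ List.replicate (2 * e + 2) false)[i]? = some true := by
        interval_cases i <;> simp
      rw [h4] at h1
      have h5 := Option.some.inj h1
      exact of_decide_eq_true h5.symm
    · rw [if_neg (by omega)]
      have h4 : ([true, true, true] ++ List.replicate (2 * e + 2) false)[i]? = some false := by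
        rw [List.getElem?_append_right (by simpa using h3)]
        rw [List.getElem?_replicate]
        rw [if_pos (by simp; omega)]
      rw [h4] at h1
      have h5 := Option.some.inj h1
      have h6 := of_decide_eq_false h5.symm
      omega
  have hstep : ∀ i, i < 2 * e + 5 → b (m + i + 1) = 2 * b (m + i) + if i < 3 then 1 else 0 := by
    intro i hi
    have h1 := hval i hi
    have h2 := hb1 (m + i)
    omega
  have h111 : b (m + 3) = 8 * b m + 7 := by
    have k0 := hstep 0 (by omega)
    have k1 := hstep 1 (by omega)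
    have k2 := hstep 2 (by omega)
    rw [if_pos (by omega)] at k0 k1 k2
    have e0 : m + 0 + 1 = m + 1 := rfl
    have e1 : m + 1 + 1 = m + 2 := rfl
    have e2 : m + 2 + 1 = m + 3 := rfl
    rw [e0, add_zero] at k0
    rw [e1] at k1
    rw [e2] at k2
    omega
  have h000 : ∀ i, i ≤ 2 * e + 2 → b (m + 3 + i) = b (m + 3) * 2 ^ i := by
    intro i
    induction i with
    | zero => intro _; simp
    | succ i ih =>
      intro hi
      have k := hstep (3 + i) (by omega)
      rw [if_neg (by omega), add_zero] at k
      have e1 : m + (3 + i) + 1 = m + 3 + (i + 1) := by ring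
      have e2 : m + (3 + i) = m + 3 + i := by ring
      rw [e1, e2, ih (by omega)] at k
      rw [k, pow_succ]
      ring
  have hlow := tst_false_two hpq hT hb2 (hb3 (m + 3) (by omega)) (h000 _ le_rfl)
  have hc : 0 ≤ (7 * r + θ / 4) / 8 := by positivity
  have hhigh := frontier_mass hM.semi hc hinv hb2 h111
  rw [← hseg] at hlow hhigh
  have e1 : x.length + (m + 3) = x.length + m + 3 := by ring
  rw [e1] at hlow
  refine hlow.trans ?_
  refine le_trans ?_ (mul_le_mul_of_nonneg_left hhigh hη)
  have hD : (0 : ℝ) < 2 ^ j / 2 ^ (x.length + m) := by positivity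
  have e2 : θ * 2 ^ j / 2 ^ (x.length + m + 3) = θ / 8 * (2 ^ j / 2 ^ (x.length + m)) := by
    rw [pow_add (2 : ℝ) (x.length + m) 3]
    field_simp
    norm_num
  have e3 : η * ((7 * r + θ / 4) / 8 * (7 / 8) * 2 ^ (j + 1) / 2 ^ (x.length + m)) =
      η * (7 * (7 * r + θ / 4)) / 32 * (2 ^ j / 2 ^ (x.length + m)) := by
    rw [pow_succ]
    field_simp
    ring
  rw [← hθdef, e2, e3]
  refine mul_le_mul_of_nonneg_right ?_ hD.le
  have h7 : 0 ≤ η * θ := mul_nonneg hη hθ.le
  nlinarith

/-- from three steps to one step -/
theorem three_steps {M : List Bool → ℝ} {X : ℕ → Bool} {δ : ℝ} (hδ : 0 < δ)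
    (h : ∀ n0, ∃ n, n0 ≤ n ∧ M (seg X (n + 3)) ≤ δ ^ 3 * M (seg X n)) (n0 : ℕ) :
    ∃ n, n0 ≤ n ∧ M (seg X (n + 1)) ≤ δ * M (seg X n) := by
  by_contra hcon
  push Not at hcon
  obtain ⟨n, hn, h1⟩ := h n0
  have h2 := hcon n hn
  have h3 := hcon (n + 1) (by omega)
  have h4 := hcon (n + 2) (by omega)
  have e1 : n + 1 + 1 = n + 2 := rfl
  have e2 : n + 2 + 1 = n + 3 := rfl
  rw [e1] at h3
  rw [e2] at h4
  have h5 : δ * (δ * M (seg X n)) < δ * M (seg X (n + 1)) := mul_lt_mul_of_pos_left h2 hδ
  have h6 : δ * (δ * (δ * M (seg X n))) < δ * M (seg X (n + 2)) :=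
    mul_lt_mul_of_pos_left (h5.trans h3) hδ
  have h7 : δ ^ 3 * M (seg X n) = δ * (δ * (δ * M (seg X n))) := by ring
  linarith

/-! ### The tree of attacks -/

theorem main {M : List Bool → ℝ} (hM : IsUniversal M) (d : ℕ) :
    ∃ X : ℕ → Bool, (∃ C : ℝ, ∀ n, M (seg X n) ≤ C / 2 ^ n) ∧ (∀ σ, LeftCE (pre σ X)) ∧
      ∀ n0, ∃ n, n0 ≤ n ∧ M (seg X (n + 3)) ≤ 1 / 4 ^ d * M (seg X n) := by
  by_contra hcon
  obtain ⟨p, q, hp, hq, hpq⟩ := hM.lsc
  obtain ⟨K, hK⟩ : ∃ K : ℕ, K = 192 * 4 ^ d := ⟨_, rfl⟩
  have hKpos : 0 < K := by rw [hK]; positivity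
  obtain ⟨G, hGdef⟩ : ∃ G : ℕ → ℕ → ℕ, G = fun e j => e - (K * e - j) / K + d := ⟨_, rfl⟩
  have hG : Computable₂ G := by
    rw [hGdef]
    exact (cadd (csub Computable.fst (cdiv (csub (cmul (Computable.const K) Computable.fst)
      Computable.snd) (Computable.const K))) (Computable.const d))
  obtain ⟨dd, hdddef⟩ : ∃ dd : ℕ → ℕ, dd = fun e => K * e + 1 := ⟨_, rfl⟩
  have hdd : Computable dd := by
    rw [hdddef]
    exact cadd (cmul (Computable.const K) Computable.id) (Computable.const 1)
  obtain ⟨c, hc, hleaf⟩ := leaves2 hM hp hq hG hdd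
  -- choice of the parameter
  obtain ⟨e, he⟩ : ∃ e : ℕ, 2 / c ≤ 2 ^ e := by
    obtain ⟨e, he⟩ := pow_unbounded_of_one_lt (2 / c) (show (1 : ℝ) < 2 by norm_num)
    exact ⟨e, he.le⟩
  have hcθ : (1 : ℝ) / 4 ^ e ≤ c / 2 ^ (e + 1) := by
    rw [div_le_iff₀ hc] at he
    have h4 : (4 : ℝ) ^ e = 2 ^ e * 2 ^ e := by rw [← mul_pow]; norm_num
    rw [h4, div_le_div_iff₀ (by positivity) (by positivity), one_mul, pow_succ]
    have : (0 : ℝ) < 2 ^ e := by positivity
    nlinarith
  set η : ℝ := 1 / (64 * 4 ^ d) with hη
  have hηpos : 0 < η := by positivity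
  have hKη : (K : ℝ) * η = 3 := by
    rw [hK, hη]
    push_cast
    field_simp
    norm_num
  obtain ⟨ρ, hρ⟩ : ∃ ρ : ℕ → ℝ, ρ = fun i => (1 + ((i % K : ℕ) : ℝ) * η) / 4 ^ (e - i / K) :=
    ⟨_, rfl⟩
  have hρ0 : ρ 0 = 1 / 4 ^ e := by
    rw [hρ]
    simp
  have hde : dd e = K * e + 1 := by rw [hdddef]
  -- properties of the densities
  have hρprop : ∀ i, i ≤ K * e → ρ i ≤ 1 ∧ 1 / 4 ^ (e - i / K) ≤ ρ i ∧
      ρ (i + 1) = ρ i + (1 / 2 ^ (2 * (e - i / K + d))) / 64 := by
    intro i hi
    have hs : i / K ≤ e := by
      rw [Nat.div_le_iff_le_mul_add_pred hKpos]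
      omega
    have ht : i % K < K := Nat.mod_lt _ hKpos
    have ht' : ((i % K : ℕ) : ℝ) + 1 ≤ K := by exact_mod_cast ht
    have htη : ((i % K : ℕ) : ℝ) * η ≤ 3 - η := by
      have : (((i % K : ℕ) : ℝ) + 1) * η ≤ K * η := mul_le_mul_of_nonneg_right ht' hηpos.le
      rw [hKη] at this
      linarith
    have ht0 : 0 ≤ ((i % K : ℕ) : ℝ) * η := by positivity
    have hsplit := Nat.div_add_mod i K
    have hlast : i / K = e → i % K = 0 := by
      intro h
      rw [h] at hsplit
      omega
    have hpow : (1 : ℝ) / 2 ^ (2 * (e - i / K + d)) / 64 = η / 4 ^ (e - i / K) := by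
      rw [hη, pow_mul, pow_add]
      norm_num
      field_simp
    refine ⟨?_, ?_, ?_⟩
    · rw [hρ]
      show (1 + ((i % K : ℕ) : ℝ) * η) / 4 ^ (e - i / K) ≤ 1
      rw [div_le_one (by positivity)]
      rcases Nat.lt_or_eq_of_le hs with h | h
      · have h1 : (4 : ℝ) ^ 1 ≤ 4 ^ (e - i / K) := pow_le_pow_right₀ (by norm_num) (by omega)
        linarith
      · rw [hlast h]
        have : e - i / K = 0 := by omega
        rw [this]
        simp
    · rw [hρ]
      show _ ≤ (1 + ((i % K : ℕ) : ℝ) * η) / 4 ^ (e - i / K)
      refine div_le_div_of_nonneg_right ?_ (by positivity)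
      linarith
    · rw [hpow, hρ]
      show (1 + (((i + 1) % K : ℕ) : ℝ) * η) / 4 ^ (e - (i + 1) / K) =
        (1 + ((i % K : ℕ) : ℝ) * η) / 4 ^ (e - i / K) + η / 4 ^ (e - i / K)
      rcases Nat.lt_or_eq_of_le (Nat.succ_le_of_lt ht) with h | h
      · have h' : i % K + 1 < K := h
        have e1 : (i + 1) % K = i % K + 1 := by
          rw [Nat.add_mod, Nat.mod_eq_of_lt (show 1 < K by omega), Nat.mod_eq_of_lt h']
        have e2 : (i + 1) / K = i / K := by
          have h3 := Nat.div_add_mod (i + 1) K
          rw [e1] at h3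
          have h4 : K * ((i + 1) / K) = K * (i / K) := by omega
          exact Nat.eq_of_mul_eq_mul_left hKpos h4
        rw [e1, e2]
        push_cast
        ring
      · have h' : i % K + 1 = K := h
        have hse : i / K < e := by
          rcases Nat.lt_or_eq_of_le hs with h5 | h5
          · exact h5
          · have h6 := hlast h5
            rw [h6] at h'
            have h7 : K = 1 := h'.symm
            rw [h7] at hK
            have h8 : 1 ≤ 4 ^ d := Nat.one_le_pow _ _ (by norm_num)
            omega
        have e0 : i + 1 = K * (i / K + 1) := by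
          rw [Nat.mul_add, mul_one]; omega
        have e1 : (i + 1) % K = 0 := by rw [e0]; exact Nat.mul_mod_right _ _
        have e2 : (i + 1) / K = i / K + 1 := by
          rw [e0, Nat.mul_div_cancel_left _ hKpos]
        rw [e1, e2]
        have e3 : e - i / K = (e - (i / K + 1)) + 1 := by omega
        rw [e3, pow_succ]
        have e4 : ((i % K : ℕ) : ℝ) * η + η = 3 := by
          have : (((i % K + 1 : ℕ)) : ℝ) * η = 3 := by rw [h', hKη]
          push_cast at this
          linarith
        have e5 : (1 + ((i % K : ℕ) : ℝ) * η) / (4 ^ (e - (i / K + 1)) * 4) +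
            η / (4 ^ (e - (i / K + 1)) * 4) =
            (1 + (((i % K : ℕ) : ℝ) * η + η)) / (4 ^ (e - (i / K + 1)) * 4) := by ring
        rw [e5, e4]
        simp only [Nat.cast_zero, zero_mul, add_zero]
        have e6 : (0 : ℝ) < 4 ^ (e - (i / K + 1)) := by positivity
        field_simp
        norm_num
  -- the induction
  have hclaim : ∀ i, i ≤ dd e → ∀ y, node2 p q G e (dd e - i) y →
      ρ i * 2 ^ (dd e - i) / 2 ^ y.length ≤ M y := by
    intro i
    induction i with
    | zero =>
      intro _ y hy
      rw [Nat.sub_zero] at hy ⊢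
      refine le_trans ?_ (hleaf e y hy)
      rw [hρ0, pow_add (2 : ℝ) (e + 1)]
      have h1 : c * (2 ^ dd e / (2 ^ (e + 1) * 2 ^ y.length)) =
          c / 2 ^ (e + 1) * 2 ^ dd e / 2 ^ y.length := by
        field_simp
      rw [h1]
      refine div_le_div_of_nonneg_right ?_ (by positivity)
      exact mul_le_mul_of_nonneg_right hcθ (by positivity)
    | succ i ih =>
      intro hi x hx
      have hiK : i ≤ K * e := by omega
      obtain ⟨hr1, hrlow, hrstep⟩ := hρprop i hiK
      set j := dd e - (i + 1) with hj
      have hji : dd e - i = j + 1 := by omega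
      have hjK : K * e - j = i := by omega
      have ih' := ih (by omega)
      rw [hji] at ih'
      have hGj : G e j = e - i / K + d := by
        rw [hGdef]
        show e - (K * e - j) / K + d = _
        rw [hjK]
      set g := G e j with hg
      rw [← hGj] at hrstep
      set θ : ℝ := 1 / 2 ^ (2 * g) with hθdef
      have hθ : 0 < θ := by positivity
      have hρpos : 0 < ρ i := lt_of_lt_of_le (by positivity) hrlow
      have hθr : θ ≤ 1 / 4 ^ d * ρ i := by
        have h1 : θ = 1 / 4 ^ d * (1 / 4 ^ (e - i / K)) := by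
          rw [hθdef, hGj, pow_mul, pow_add]
          norm_num
        rw [h1]
        exact mul_le_mul_of_nonneg_left hrlow (by positivity)
      have hθr' : θ ≤ ρ i := by
        refine hθr.trans ?_
        have h1 : (1 : ℝ) / 4 ^ d ≤ 1 := by
          rw [div_le_one (by positivity)]
          exact one_le_pow₀ (by norm_num)
        calc 1 / 4 ^ d * ρ i ≤ 1 * ρ i := mul_le_mul_of_nonneg_right h1 hρpos.le
          _ = ρ i := one_mul _
      have H : ∀ y, piece p q g j x y = true → ρ i * 2 ^ (j + 1) / 2 ^ y.length ≤ M y :=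
        fun y hy => ih' y ⟨x, hx, hy⟩
      have hsup := trunc_super hM.semi j x
      have hB : (0 : ℝ) ≤ 2 ^ (j + 1) / 2 ^ x.length := by positivity
      have hTT : ∀ n h a, h ≤ n → a < 2 ^ n → tst p q g j x (n + 1) h a = true →
          θ / 4 * (2 ^ (j + 1) / 2 ^ x.length) * ((2 ^ h - a % 2 ^ h : ℕ) : ℝ) / 2 ^ (n + 1) ≤
          trunc M j x (n + 1 - h) (a / 2 ^ h) -
            (2 ^ (j + 1) / 2 ^ x.length) * ((a % 2 ^ h : ℕ) : ℝ) / 2 ^ (n + 1) :=
        fun n h a hh _ ht => tst_true hpq hh ht
      have hPP := pieces_ok (p := p) (q := q) (M := M) hr1 H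
      by_cases hex : ∃ n, (st (tst p q g j x) n).2 = true
      · -- exhausted
        classical
        have hn := Nat.find_spec hex
        have hmin := fun m hm => Nat.find_min hex (m := m) hm
        set n := Nat.find hex with hndef
        obtain ⟨k, hk⟩ : ∃ k, n = k + 1 := by
          rcases Nat.eq_zero_or_pos n with h0 | h0
          · rw [h0] at hn
            exact absurd hn (by simp [st])
          · exact ⟨n - 1, by omega⟩
        have hkf := hmin k (by omega)
        rw [Bool.not_eq_true] at hkf
        have hst : st (tst p q g j x) k = ((st (tst p q g j x) k).1, false) := by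
          rw [← hkf]
        rw [hk] at hn
        have h1 := exhausted hsup hB hθ.le (by linarith) hTT hPP hst hn
        have h2 : trunc M j x 0 0 ≤ M x := by
          refine (min_le_left _ _).trans (le_of_eq ?_)
          rw [bits_zero, List.append_nil]
        refine le_trans (le_of_eq ?_) (h1.trans h2)
        rw [hrstep, pow_succ]
        ring
      · -- never exhausted
        exfalso
        push Not at hex
        have hne : ∀ n, (st (tst p q g j x) n).2 = false := fun n =>
          Bool.eq_false_iff.2 (hex n)
        refine hcon (attack_gives hM hp hq hpq (by positivity) hρpos.le hθr hne fun n k hk => ?_)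
        have hst : st (tst p q g j x) n = ((st (tst p q g j x) n).1, false) := by
          rw [← hne n]
        exact (invariant hsup hB hθ.le (by linarith) hTT hPP n _ hst).2 k hk
  have hfin := hclaim (dd e) le_rfl [] (by rw [Nat.sub_self]; rfl)
  rw [Nat.sub_self] at hfin
  have h1 := hM.semi.root
  simp only [pow_zero, List.length_nil, mul_one, div_one] at hfin
  rw [hde, (hρprop (K * e) le_rfl).2.2] at hfin
  have h2 : ρ (K * e) = 1 := by
    rw [hρ]
    show (1 + ((K * e % K : ℕ) : ℝ) * η) / 4 ^ (e - K * e / K) = 1
    rw [Nat.mul_mod_right, Nat.mul_div_cancel_left _ hKpos, Nat.sub_self]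
    simp
  rw [h2] at hfin
  have h3 : (0 : ℝ) < 1 / 2 ^ (2 * (e - K * e / K + d)) / 64 := by positivity
  linarith


/-! ### Universality above a string -/

theorem pos_of_universal {M : List Bool → ℝ} (hM : IsUniversal M) (x : List Bool) : 0 < M x := by
  obtain ⟨c, hc, h⟩ := hM.dom (fun y => 1 / 2 ^ y.length) ⟨fun y => by positivity, by simp,
    fun y => by
      simp only [List.length_append, List.length_singleton, pow_succ]
      apply le_of_eq
      field_simp
      norm_num⟩ ⟨fun _ _ => 1, fun y _ => 2 ^ y.length - 1, (Computable.const 1).to₂,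
    (csub (cpw (clen Computable.fst)) (Computable.const 1)), fun y => by
      have e : (fun _ : ℕ => (((1 : ℕ)) : ℝ) / (((2 ^ y.length - 1 : ℕ) : ℝ) + 1)) =
          fun _ => 1 / 2 ^ y.length := by
        funext _
        rw [Nat.cast_sub Nat.one_le_two_pow]
        push_cast
        congr 1
        ring
      rw [e]
      exact ⟨monotone_const, tendsto_const_nhds⟩⟩
  exact lt_of_lt_of_le (by positivity) (h x)

/-- a semimeasure moved above the string `σ` -/
noncomputable def shift (ν : List Bool → ℝ) (σ y : List Bool) : ℝ :=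
  if y.take σ.length = σ then ν (y.drop σ.length) else if σ.take y.length = y then ν [] else 0

theorem shift_semi {ν : List Bool → ℝ} (hν : IsSemimeasure ν) (σ : List Bool) :
    IsSemimeasure (shift ν σ) := by
  refine ⟨fun y => ?_, ?_, fun y => ?_⟩
  · unfold shift
    split_ifs
    · exact hν.nonneg _
    · exact hν.nonneg _
    · exact le_rfl
  · unfold shift
    split_ifs
    · simpa using hν.root
    · exact hν.root
    · norm_num
  · by_cases h1 : y.take σ.length = σ
    · have hl : σ.length ≤ y.length := by
        have := congrArg List.length h1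
        rw [List.length_take] at this
        omega
      have h2 : ∀ b, shift ν σ (y ++ [b]) = ν (y.drop σ.length ++ [b]) := by
        intro b
        unfold shift
        rw [if_pos (by rw [List.take_append_of_le_length hl, h1]),
          List.drop_append_of_le_length hl]
      rw [h2, h2]
      unfold shift
      rw [if_pos h1]
      exact hν.split _
    · -- the children with a nonzero value
      have h2 : ∀ b, shift ν σ (y ++ [b]) ≠ 0 → shift ν σ (y ++ [b]) = ν [] ∧
          σ.take y.length = y ∧ σ[y.length]? = some b := by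
        intro b hb
        unfold shift at hb ⊢
        by_cases h3 : (y ++ [b]).take σ.length = σ
        · rw [if_pos h3]
          have hl : y.length < σ.length := by
            by_contra hcon
            push Not at hcon
            rw [List.take_append_of_le_length hcon] at h3
            exact h1 h3
          have h4 : (y ++ [b]).take σ.length = y ++ [b] := List.take_of_length_le (by simp; omega)
          rw [h4] at h3
          subst h3
          refine ⟨by simp, by simp, by simp⟩
        · rw [if_neg h3] at hb ⊢
          by_cases h4 : σ.take (y ++ [b]).length = y ++ [b]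
          · rw [if_pos h4]
            refine ⟨rfl, ?_, ?_⟩
            · have := congrArg (List.take y.length) h4
              rw [List.take_take, List.take_left' rfl, List.length_append,
                min_eq_left (by omega)] at this
              exact this
            · have := congrArg (fun z => z[y.length]?) h4
              simp only [List.getElem?_take, List.length_append, List.length_singleton,
                lt_add_one, if_true] at this
              rw [this]
              simp
          · rw [if_neg h4] at hb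
            exact absurd rfl hb
      have h0 : 0 ≤ shift ν σ y := by
        unfold shift
        rw [if_neg h1]
        split_ifs
        · exact hν.nonneg _
        · exact le_rfl
      by_cases ha : shift ν σ (y ++ [false]) = 0
      · rw [ha, zero_add]
        by_cases hb : shift ν σ (y ++ [true]) = 0
        · rw [hb]; exact h0
        · obtain ⟨e1, e2, _⟩ := h2 true hb
          rw [e1]
          unfold shift
          rw [if_neg h1, if_pos e2]
      · obtain ⟨e1, e2, e3⟩ := h2 false ha
        have hb : shift ν σ (y ++ [true]) = 0 := by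
          by_contra hb
          have := (h2 true hb).2.2
          rw [e3] at this
          exact absurd (Option.some.inj this) (by decide)
        rw [e1, hb, add_zero]
        unfold shift
        rw [if_neg h1, if_pos e2]

theorem shift_lsc {ν : List Bool → ℝ} (hν : LowerSemicomputable ν) (σ : List Bool) :
    LowerSemicomputable (shift ν σ) := by
  obtain ⟨p, q, hp, hq, h⟩ := hν
  have c1 : Computable fun z : List Bool × ℕ => decide (z.1.take σ.length = σ) :=
    ceqL (ctake Computable.fst (Computable.const _)) (Computable.const _)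
  have c2 : Computable fun z : List Bool × ℕ => decide (σ.take z.1.length = z.1) :=
    ceqL (ctake (Computable.const _) (clen Computable.fst)) Computable.fst
  have c3 : Computable fun z : List Bool × ℕ => z.1.drop σ.length :=
    cdrop Computable.fst (Computable.const _)
  refine ⟨fun y t => bif decide (y.take σ.length = σ) then p (y.drop σ.length) t else
      bif decide (σ.take y.length = y) then p [] t else 0,
    fun y t => bif decide (y.take σ.length = σ) then q (y.drop σ.length) t else
      bif decide (σ.take y.length = y) then q [] t else 0, ?_, ?_, fun y => ?_⟩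
  · exact cite c1 (hp.comp c3 Computable.snd)
      (cite c2 (hp.comp (Computable.const []) Computable.snd) (Computable.const 0))
  · exact cite c1 (hq.comp c3 Computable.snd)
      (cite c2 (hq.comp (Computable.const []) Computable.snd) (Computable.const 0))
  · unfold shift
    by_cases h1 : y.take σ.length = σ
    · simp only [h1, decide_true, cond_true, if_true]
      exact h _
    · by_cases h2 : σ.take y.length = y
      · simp only [h1, decide_false, cond_false, if_false, h2, decide_true, cond_true, if_true]
        exact h _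
      · simp only [h1, decide_false, cond_false, if_false, h2]
        simp only [CharP.cast_eq_zero, zero_add, div_one]
        exact ⟨monotone_const, tendsto_const_nhds⟩

theorem universal_above {M : List Bool → ℝ} (hM : IsUniversal M) (σ : List Bool) :
    IsUniversal fun y => M (σ ++ y) := by
  refine ⟨⟨fun y => hM.semi.nonneg _, ?_, fun y => ?_⟩, ?_, fun ν h1 h2 => ?_⟩
  · exact M_le_one hM.semi _
  · show M (σ ++ (y ++ [false])) + M (σ ++ (y ++ [true])) ≤ M (σ ++ y)
    rw [← List.append_assoc, ← List.append_assoc]
    exact hM.semi.split _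
  · obtain ⟨p, q, hp, hq, h⟩ := hM.lsc
    exact ⟨fun y t => p (σ ++ y) t, fun y t => q (σ ++ y) t,
      hp.comp (cappend (Computable.const σ) Computable.fst) Computable.snd,
      hq.comp (cappend (Computable.const σ) Computable.fst) Computable.snd, fun y => h (σ ++ y)⟩
  · obtain ⟨c, hc, h⟩ := hM.dom _ (shift_semi h1 σ) (shift_lsc h2 σ)
    refine ⟨c, hc, fun y => ?_⟩
    have h3 := h (σ ++ y)
    unfold shift at h3
    rw [if_pos (List.take_left' rfl), List.drop_left' rfl] at h3
    exact h3

/-- For every universal lower semicomputable semimeasure `M` (whether or not it is a universal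
mixture), every `δ > 0` and every string `σ` there is a Martin-Löf random sequence `X` extending `σ`,
moreover left-c.e. (so a halting probability), such that
`M (X 0 ... X n) / M (X 0 ... X (n - 1)) ≤ δ` for infinitely many `n`. -/
theorem result : ∀ M : List Bool → ℝ, IsUniversal M → ∀ δ : ℝ, 0 < δ → ∀ σ : List Bool,
    ∃ X : ℕ → Bool, MLRandom X ∧ LeftCE X ∧ seg X σ.length = σ ∧
      ∀ N, ∃ n, N ≤ n ∧ 0 < M (seg X n) ∧ M (seg X (n + 1)) / M (seg X n) ≤ δ := by
  intro M hM δ hδ σ
  obtain ⟨d, hd⟩ : ∃ d : ℕ, (1 : ℝ) / 4 ^ d ≤ δ ^ 3 := by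
    obtain ⟨d, hd⟩ := pow_unbounded_of_one_lt (1 / δ ^ 3) (show (1 : ℝ) < 4 by norm_num)
    refine ⟨d, ?_⟩
    have h3 : 0 < δ ^ 3 := by positivity
    rw [div_lt_iff₀ h3] at hd
    rw [div_le_iff₀ (by positivity)]
    linarith
  obtain ⟨X, ⟨C, hC⟩, h2, h3⟩ := main (universal_above hM σ) d
  have hseg : ∀ m, seg (pre σ X) (σ.length + m) = σ ++ seg X m := seg_pre σ X
  have hC0 : 0 ≤ C := by
    have h4 := hC 0
    simp only [pow_zero, div_one] at h4
    exact (hM.semi.nonneg _).trans h4
  have hbound : ∀ n, M (seg (pre σ X) n) ≤ ((1 + C) * 2 ^ σ.length) / 2 ^ n := by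
    intro n
    rcases Nat.lt_or_ge n σ.length with h | h
    · refine (M_le_one hM.semi _).trans ?_
      rw [le_div_iff₀ (by positivity), one_mul]
      have h1 : (2 : ℝ) ^ n ≤ 2 ^ σ.length := pow_le_pow_right₀ (by norm_num) h.le
      have h5 : (0 : ℝ) ≤ C * 2 ^ σ.length := by positivity
      linarith
    · obtain ⟨m, rfl⟩ : ∃ m, n = σ.length + m := ⟨n - σ.length, by omega⟩
      rw [hseg]
      refine (hC m).trans ?_
      rw [pow_add, div_le_div_iff₀ (by positivity) (by positivity)]
      have h5 : (0 : ℝ) < 2 ^ σ.length * 2 ^ m := by positivity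
      nlinarith
  refine ⟨pre σ X, random_of_bounded hM hbound, h2 σ, ?_, fun N => ?_⟩
  · have h4 := hseg 0
    rw [add_zero] at h4
    rw [h4]
    show σ ++ [] = σ
    exact List.append_nil σ
  · have h4 : ∀ n0, ∃ n, n0 ≤ n ∧ (fun y => M (σ ++ y)) (seg X (n + 3)) ≤
        δ ^ 3 * (fun y => M (σ ++ y)) (seg X n) := by
      intro n0
      obtain ⟨n, hn, h5⟩ := h3 n0
      refine ⟨n, hn, h5.trans ?_⟩
      exact mul_le_mul_of_nonneg_right hd (hM.semi.nonneg _)
    obtain ⟨n, hn, h5⟩ := three_steps (M := fun y => M (σ ++ y)) hδ h4 N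
    refine ⟨σ.length + n, by omega, pos_of_universal hM _, ?_⟩
    rw [div_le_iff₀ (pos_of_universal hM _), add_assoc, hseg, hseg]
    exact h5

end Pool.Agent.Results.MP_b38472_lc.ArbitrarilySmallConditionals
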